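import Pool.Agent.V1189.Annulus.Meas

/-!
# MP_94eb8e_an, Q1: Oseledets integrability fails for some non-periodic invariant measure

The billiard in the annulus `1 ≤ |z| ≤ 2` (smooth boundary, no corners, hence no cusps) has a
non-periodic invariant probability measure `μ`, giving full mass to orbits all of whose
collisions are non-tangential, with `∫ log⁺ ‖D_x T‖ dμ = ∞`.
-/

set_option autoImplicit false

open MeasureTheory
open V1189.Annulus

namespace Pool.Agent.Results.MP_94eb8e_an.AnnulusNotIntegrable

theorem result :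
    ∃ (B : Table) (μ : Measure (ℂ × ℂ)),
      -- the table is the annulus, bounded by two concentric circles
      B.Q = {z : ℂ | 1 ≤ ‖z‖ ∧ ‖z‖ ≤ 2} ∧
      -- `μ` is an invariant probability measure on the phase space
      IsProbabilityMeasure μ ∧
      AEMeasurable B.T μ ∧
      μ.map B.T = μ ∧
      -- carried by points whose whole orbit avoids the singular set
      (∀ᵐ x ∂μ, x ∈ B.phase ∧ B.RegularOrbit x) ∧
      -- non-periodic
      (∀ᵐ x ∂μ, ∀ n : ℕ, 1 ≤ n → B.T^[n] x ≠ x) ∧
      -- the billiard map is differentiable at almost every point, in the coordinates `(r, φ)`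
      (∀ᵐ x ∂μ, ∃ L, B.HasDeriv x L) ∧
      -- and `log⁺` of the norm of its derivative has infinite integral
      (∀ D : ℂ × ℂ → (ℝ × ℝ →L[ℝ] ℝ × ℝ), (∀ᵐ x ∂μ, B.HasDeriv x (D x)) →
        ∫⁻ x, ENNReal.ofReal (Real.posLog ‖D x‖) ∂μ = ⊤) := by
  refine ⟨ann, mu, rfl, inferInstance, aemeasurable_T, map_T, ?_, ?_, ?_, lintegral_top⟩
  · exact ae_good.mono fun x hx => ⟨good_phase hx, good_reg hx⟩
  · exact ae_good.mono fun x hx n hn => good_aper hx n hn
  · exact ae_good.mono fun x hx => good_deriv hx

end Pool.Agent.Results.MP_94eb8e_an.AnnulusNotIntegrable
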